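import Pool.Agent.Helper23.Hurwitz.Defs

/-!
# Genera with a unique Hurwitz surface: definitions
-/

namespace Pool.Agent.Helper4.HZ

open Pool.Agent.Helper23.Hurwitz

/-- `T` is a nonabelian simple group. -/
def NS (T : Type) [Group T] : Prop := IsSimpleGroup T ∧ ∃ a b : T, a * b ≠ b * a

/-- The group `PSL₂(ℤ/p)`. -/
abbrev PSL2 (p : ℕ) : Type := Matrix.ProjectiveSpecialLinearGroup (Fin 2) (ZMod p)

/-- `T` is isomorphic to `PSL₂(p)` for some prime number `p`. -/
def IsPSL2 (T : Type) [Group T] : Prop := ∃ p : ℕ, p.Prime ∧ Nonempty (T ≃* PSL2 p)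

/-- Every nonabelian composition factor of `G` satisfies `P`; a nonabelian composition factor is a
nonabelian simple group `H/K` with `H` a subnormal subgroup of `G` and `K` normal in `H`. -/
def NonabFactors (G : Type) [Group G] (P : (T : Type) → [Group T] → Prop) : Prop :=
  ∀ (H : Subgroup G) (K : Subgroup H) [K.Normal], H.IsSubnormal → NS (H ⧸ K) → P (H ⧸ K)

/-- The genera `g ≥ 2` with exactly one Hurwitz surface such that every nonabelian composition
factor of the automorphism group `Δ/N` of this surface satisfies `X` or is isomorphic to `PSL₂(p)`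
for a prime `p`. -/
def UX (X : (T : Type) → [Group T] → Prop) : Set ℕ :=
  {g | 2 ≤ g ∧ hurwitzNumber g = 1 ∧ ∀ (N : Subgroup Delta) [N.Normal],
    N.index = 84 * (g - 1) → IsSmooth N → NonabFactors (Delta ⧸ N) (fun T _ => X T ∨ IsPSL2 T)}

/-- The orders of the finite nonabelian simple groups satisfying `X` and not isomorphic to
`PSL₂(p)` for any prime `p`. -/
def simpleOrders (X : (T : Type) → [Group T] → Prop) : Set ℕ :=
  {m | ∃ (T : Type) (_ : Group T), Finite T ∧ NS T ∧ X T ∧ ¬ IsPSL2 T ∧ Nat.card T = m}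

/-- The order of `PSL₂(p)`. -/
noncomputable def w (p : ℕ) : ℕ := Nat.card (PSL2 p)

/-- The generators of the orders of the nonabelian part. -/
def atoms (X : (T : Type) → [Group T] → Prop) : Set ℕ :=
  simpleOrders X ∪ {m | ∃ p : ℕ, p.Prime ∧ p ≤ 7 ∧ m = w p} ∪
    {m | ∃ p : ℕ, p.Prime ∧ 7 < p ∧ (m = w p ^ 2 ∨ m = w p ^ 3)}

/-- `n = a b c` with `a` a product of atoms, the primes dividing `b` divide `7a`, and `c` is
`6`-full. -/
def Data (X : (T : Type) → [Group T] → Prop) (n : ℕ) : Prop :=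
  ∃ a ∈ Submonoid.closure (atoms X), ∃ b c : ℕ, n = a * b * c ∧
    (∀ p : ℕ, p.Prime → p ∣ b → p ∣ 7 * a) ∧ (∀ p : ℕ, p.Prime → p ∣ c → p ^ 6 ∣ c)

/-- `K/L` is a chief factor of `G`. -/
structure IsChief {G : Type} [Group G] (K L : Subgroup G) : Prop where
  nK : K.Normal
  nL : L.Normal
  lt : L < K
  max : ∀ M : Subgroup G, M.Normal → L ≤ M → M ≤ K → M = L ∨ M = K

/-- `K 0 = G > K 1 > ... > K r = 1` is a chief series of `G`. -/
structure IsChiefSeries {G : Type} [Group G] (r : ℕ) (K : ℕ → Subgroup G) : Prop where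
  top : K 0 = ⊤
  bot : K r = ⊥
  chief : ∀ j < r, IsChief (K j) (K (j + 1))

/-- `K/L ≅ T`. -/
def FacIso {G : Type} [Group G] (K L : Subgroup G) (T : Type) [Group T] : Prop :=
  ∃ f : K →* T, Function.Surjective f ∧ ∀ k : K, f k = 1 ↔ (k : G) ∈ L

/-- The centraliser of `K/L`. -/
def Cen {G : Type} [Group G] (K L : Subgroup G) : Set G :=
  {g | ∀ k ∈ K, g * k * g⁻¹ * k⁻¹ ∈ L}

/-- Every homomorphism from `G` to a commutative group is trivial. -/
def Perf (G : Type) [Group G] : Prop :=
  ∀ (A : Type) [CommGroup A] (f : G →* A), f = 1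

/-- The subgroup generated by the elements whose order is a power of `p`. -/
def Opp (p : ℕ) (G : Type) [Group G] : Subgroup G :=
  Subgroup.closure {g | ∃ k : ℕ, g ^ p ^ k = 1}

/-- The homomorphisms `H → ℤ/p`, as functions. -/
def homsTo (p : ℕ) {G : Type} [Group G] (H : Subgroup G) : Submodule (ZMod p) (H → ZMod p) where
  carrier := {f | ∀ a b : H, f (a * b) = f a + f b}
  zero_mem' := by intro a b; simp
  add_mem' := by
    intro f g hf hg a b
    simp only [Pi.add_apply, hf a b, hg a b]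
    ring
  smul_mem' := by
    intro c f hf a b
    simp only [Pi.smul_apply, smul_eq_mul, hf a b]
    ring

/-- The Dirichlet series `∑_{n ∈ A} n^(-s)` with values in `[0, ∞]`. -/
noncomputable def Z (s : ℝ) (A : Set ℕ) : ENNReal := ∑' n : A, ENNReal.ofReal (((n : ℕ) : ℝ) ^ (-s))

end Pool.Agent.Helper4.HZ
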