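import Pool.Agent.Helper4.HZ.Goals2
import Pool.Agent.Helper23.Hurwitz.Count
import Pool.Agent.Helper23.Hurwitz.Abscissa

/-!
# Assembly
-/

namespace Pool.Agent.Helper4.HZ

open Pool.Agent.Helper23.Hurwitz

/-- There is exactly one Hurwitz surface of genus `2ℓ⁶ + 1`. -/
theorem hurwitzNumber_eq_one' {l : ℕ} (hp : l.Prime) (hl168 : 168 < l)
    (hl : l % 7 = 3 ∨ l % 7 = 5) : hurwitzNumber (2 * l ^ 6 + 1) = 1 := by
  have : Fact l.Prime := ⟨hp⟩
  obtain ⟨K₀, ⟨hn, hi⟩, huniq⟩ := existsUnique_index l hl168 hl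
  have hidx : 84 * (2 * l ^ 6 + 1 - 1) = 168 * l ^ 6 := by
    rw [Nat.add_sub_cancel]; ring
  have htop : K₀ ≠ ⊤ := by
    intro h
    rw [h, Subgroup.index_top] at hi
    have : 1 ≤ l ^ 6 := Nat.one_le_pow _ _ hp.pos
    omega
  unfold hurwitzNumber
  rw [hidx, Nat.card_eq_one_iff_unique]
  refine ⟨⟨?_⟩, ⟨⟨K₀, hn, hi, isSmooth_of_ne_top K₀ htop⟩⟩⟩
  rintro ⟨K, hKn, hKi, _⟩ ⟨K', hKn', hKi', _⟩
  apply Subtype.ext
  show K = K'
  rw [huniq K hKn hKi, huniq K' hKn' hKi']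

theorem lower_of (h : S_LOW) (X : (T : Type) → [Group T] → Prop) :
    ((1 / 6 : ℝ) : EReal) ≤ abscissa (UX X) := by
  apply le_sInf
  rintro s ⟨r, rfl, hr⟩
  rw [EReal.coe_le_coe_iff]
  by_contra hlt
  push Not at hlt
  refine not_summable_of_primes _ ?_ hlt hr
  intro l hp hl168 hl
  have h1 : 1 ≤ l ^ 6 := Nat.one_le_pow _ _ hp.pos
  refine ⟨by omega, hurwitzNumber_eq_one' hp hl168 (Or.inl hl), ?_⟩
  intro N _ hN _ H K _ hH hT
  have hidx : N.index = 168 * l ^ 6 := by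
    rw [hN, Nat.add_sub_cancel]; ring
  exact Or.inr (h l hp hl168 N hidx H K hH hT)

theorem UX_true : UX (fun _ _ => True) = {g : ℕ | 2 ≤ g ∧ hurwitzNumber g = 1} := by
  ext g
  constructor
  · rintro ⟨h1, h2, _⟩
    exact ⟨h1, h2⟩
  · rintro ⟨h1, h2⟩
    exact ⟨h1, h2, fun N _ _ _ H K _ _ _ => Or.inl trivial⟩

/-- If `Z s A` is finite then the series is summable. -/
theorem summable_of_Z {s : ℝ} {A : Set ℕ} (h : Z s A < ⊤) :
    Summable (fun n : A => ((n : ℕ) : ℝ) ^ (-s)) := by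
  have h1 := ENNReal.summable_toReal h.ne
  refine h1.congr (fun n => ?_)
  exact ENNReal.toReal_ofReal (Real.rpow_nonneg (Nat.cast_nonneg _) _)

theorem Z_of_summable {s : ℝ} {A : Set ℕ} (h : Summable (fun n : A => ((n : ℕ) : ℝ) ^ (-s))) :
    Z s A < ⊤ := by
  unfold Z
  rw [lt_top_iff_ne_top]
  exact h.tsum_ofReal_ne_top

theorem Z_mono {s : ℝ} {A B : Set ℕ} (h : A ⊆ B) : Z s A ≤ Z s B := by
  unfold Z
  exact ENNReal.tsum_comp_le_tsum_of_injective (Set.inclusion_injective h)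
    (fun n : B => ENNReal.ofReal (((n : ℕ) : ℝ) ^ (-s)))

theorem Z_union {s : ℝ} (A B : Set ℕ) : Z s (A ∪ B) ≤ Z s A + Z s B := by
  unfold Z
  exact ENNReal.tsum_union_le (fun n : ℕ => ENNReal.ofReal ((n : ℝ) ^ (-s))) A B

theorem Z_finite {s : ℝ} {A : Set ℕ} (h : A.Finite) : Z s A < ⊤ := by
  have : Finite A := h
  have : Fintype A := Fintype.ofFinite A
  unfold Z
  rw [tsum_fintype]
  exact ENNReal.sum_lt_top.2 (fun _ _ => ENNReal.ofReal_lt_top)

theorem abscissa_le_of_Z {r : ℝ} {A : Set ℕ} (h : ∀ s : ℝ, r < s → Z s A < ⊤) :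
    abscissa A ≤ (r : EReal) := by
  apply le_of_forall_gt
  intro c hc
  induction c with
  | bot => exact absurd hc (by simp)
  | coe c =>
    have hc' : r < c := by exact_mod_cast hc
    have h1 : abscissa A ≤ (((r + c) / 2 : ℝ) : EReal) := by
      apply sInf_le
      exact ⟨(r + c) / 2, rfl, summable_of_Z (h _ (by linarith))⟩
    refine lt_of_le_of_lt h1 ?_
    exact_mod_cast (by linarith : (r + c) / 2 < c)
  | top =>
    have h1 : abscissa A ≤ ((r + 1 : ℝ) : EReal) := by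
      apply sInf_le
      exact ⟨r + 1, rfl, summable_of_Z (h _ (by linarith))⟩
    exact lt_of_le_of_lt h1 (EReal.coe_lt_top _)

theorem known_of (hA : S_KOA) (hB : S_KOB) (hC : S_KOC) (hD : S_KOD) {s : ℝ} (hs : 1 / 6 < s)
    {S : Set ℕ} (hS : S.Finite) : Z s (KnownOrders ∪ S) < ⊤ := by
  have h0 : 0 < s := by linarith
  unfold KnownOrders
  refine lt_of_le_of_lt (Z_union _ _) (ENNReal.add_lt_top.2 ⟨?_, Z_finite hS⟩)
  refine lt_of_le_of_lt (Z_union _ _) (ENNReal.add_lt_top.2 ⟨?_, (hA s h0).2⟩)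
  refine lt_of_le_of_lt (Z_union _ _) (ENNReal.add_lt_top.2 ⟨?_, hD s hs⟩)
  refine lt_of_le_of_lt (Z_union _ _) (ENNReal.add_lt_top.2 ⟨?_, hC s hs⟩)
  exact lt_of_le_of_lt (Z_union _ _) (ENNReal.add_lt_top.2 ⟨(hA s h0).1, hB s hs⟩)

theorem abscissa_empty : abscissa ∅ = ⊥ := by
  rw [eq_bot_iff]
  apply le_of_forall_gt
  intro c hc
  induction c with
  | bot => exact absurd hc (lt_irrefl _)
  | coe c =>
    refine lt_of_le_of_lt (sInf_le ⟨c - 1, rfl, ?_⟩) (by exact_mod_cast (by linarith : c - 1 < c))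
    exact summable_of_hasFiniteSupport (Set.toFinite _)
  | top =>
    refine lt_of_le_of_lt (sInf_le ⟨0, rfl, ?_⟩) (EReal.coe_lt_top _)
    exact summable_of_hasFiniteSupport (Set.toFinite _)

theorem simpleOrders_false : simpleOrders (fun _ _ => False) = ∅ := by
  rw [Set.eq_empty_iff_forall_notMem]
  rintro m ⟨T, _, _, _, h, _⟩
  exact h

/-- The final theorem. -/
theorem final_of (hL : S_LOW) (hU : S_ZAB) (hA : S_KOA) (hB : S_KOB) (hC : S_KOC) (hD : S_KOD) :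
    (∀ X : (T : Type) → [Group T] → Prop,
      ((1 / 6 : ℝ) : EReal) ≤ abscissa (UX X) ∧
        abscissa (UX X) ≤ max ((1 / 6 : ℝ) : EReal) (abscissa (simpleOrders X))) ∧
    (∀ S : Set ℕ, S.Finite →
      abscissa (UX (fun T _ => Nat.card T ∈ KnownOrders ∪ S)) = ((1 / 6 : ℝ) : EReal)) := by
  refine ⟨fun X => ⟨lower_of hL X, hU X⟩, ?_⟩
  intro S hS
  apply le_antisymm _ (lower_of hL _)
  refine (hU _).trans (max_le le_rfl ?_)
  apply abscissa_le_of_Z
  intro s hs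
  refine lt_of_le_of_lt (Z_mono ?_) (known_of hA hB hC hD hs hS)
  rintro m ⟨T, _, _, _, h, _, rfl⟩
  exact h

/-- The consequence for `s₀`. -/
theorem final_all (hL : S_LOW) (hU : S_ZAB) (hA : S_KOA) (hB : S_KOB) (hC : S_KOC) (hD : S_KOD)
    (S : Set ℕ) (hS : S.Finite)
    (hT : ∀ (T : Type) [Group T] [Finite T], NS T → IsPSL2 T ∨ Nat.card T ∈ KnownOrders ∪ S) :
    abscissa {g : ℕ | 2 ≤ g ∧ hurwitzNumber g = 1} = ((1 / 6 : ℝ) : EReal) := by
  rw [← (final_of hL hU hA hB hC hD).2 S hS]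
  congr 1
  ext g
  constructor
  · rintro ⟨h1, h2⟩
    refine ⟨h1, h2, fun N _ hN _ H K _ _ hns => ?_⟩
    have : Finite (Delta ⧸ N) := by
      apply Nat.finite_of_card_ne_zero
      change N.index ≠ 0
      omega
    have : Finite (H ⧸ K) := inferInstance
    exact (hT _ hns).symm
  · rintro ⟨h1, h2, _⟩
    exact ⟨h1, h2⟩

end Pool.Agent.Helper4.HZ
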