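import Pool.Agent.Helper4.HZ.Defs

/-!
# Genera with a unique Hurwitz surface: the packets

Everything is elementary. `Δ = ⟨x, y | x² = y³ = (xy)⁷ = 1⟩` is `Delta` of
`Pool/Agent/Helper23/Hurwitz`; `z = xy`. Prove `theorem <name>_holds : S_<name>`; every statement
is independent of the others unless the docstring says that it takes others as hypotheses.
-/

namespace Pool.Agent.Helper4.HZ

open Pool.Agent.Helper23.Hurwitz

/-! ## Part A: the branch cycle argument -/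

/-- **BCA** (1 h). `G` finite, `p` prime not dividing `|G|`, `u ∈ F_p[G]` central:
`(u^p)(h^p) = u(h)` for all `h` (`u(h)` = `u.coeff h`).

Proof. For `a ∈ F_p[G]` let `M a` be the matrix `(M a) g h = a (g * h⁻¹)` indexed by `G`. Then
`M (a * b) = M a * M b` (`MonoidAlgebra.mul_apply` or `MonoidAlgebra.mul_apply_left`; or take for
`M` the map `Algebra.leftMulMatrix` of the basis `single g 1`), so `M (a^p) = (M a)^p`. The trace of
`M a` is `∑_g a(1) = |G| a(1)`. By `ZMod.trace_pow_card`,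
`|G| (a^p)(1) = trace ((M a)^p) = (trace (M a))^p = (|G| a(1))^p = |G| a(1)` (Fermat: `ZMod.pow_card`),
and `|G| ≠ 0` in `F_p`, so `(a^p)(1) = a(1)` for EVERY `a`. Apply this to `a = u * single h⁻¹ 1`:
since `u` is central, `a^p = u^p * single (h⁻¹^p) 1`, `(a^p)(1) = (u^p)(h^p)` and `a(1) = u(h)`
(`MonoidAlgebra.mul_single_apply`). -/
def S_BCA : Prop :=
  ∀ (G : Type) [Group G] [Finite G] (p : ℕ) [Fact p.Prime], ¬ p ∣ Nat.card G →
    ∀ u : MonoidAlgebra (ZMod p) G, (∀ g : G, Commute u (MonoidAlgebra.single g 1)) →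
      ∀ h : G, (u ^ p).coeff (h ^ p) = u.coeff h

/-- **BCB** (1.5 h; hypothesis `S_BCA`). `G` finite, `i` coprime to `|G|`, `h ∈ G`: the equations
`x² = y³ = 1`, `xy = h` and `x² = y³ = 1`, `xy = hⁱ` have the same number of solutions.

Proof. By Dirichlet (`Nat.forall_exists_prime_gt_and_modEq`) there is a prime `p > |G|` with
`p ≡ i mod |G|`; then `hⁱ = h^p` (`h^|G| = 1`) and `p ∤ |G|`. Let `u_A = ∑_{g : g² = 1} g`,
`u_B = ∑_{g : g³ = 1} g` in `F_p[G]`; they are central (the sets are closed under conjugation).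
`orderOf (g^p) = orderOf g` (`p` coprime to the order), so `(g^p)² = 1 ↔ g² = 1` and
`(g^p)³ = 1 ↔ g³ = 1`. By BCA `(u_A^p)(h^p) = u_A(h) = u_A(h^p)` for all `h`, and `h ↦ h^p` is a
bijection of `G`, so `u_A^p = u_A`; similarly `u_B^p = u_B`. `u_A u_B` is central and
`(u_A u_B)^p = u_A^p u_B^p = u_A u_B` (they commute), so by BCA again
`(u_A u_B)(h^p) = ((u_A u_B)^p)(h^p) = (u_A u_B)(h)`. Finally `(u_A u_B)(h)` is the class in `F_p`
of the number of `(x, y)` with `x² = 1`, `y³ = 1`, `xy = h`; both numbers are `≤ |G| < p`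
(`y = x⁻¹h`), so they are equal as natural numbers. -/
def S_BCB : Prop :=
  ∀ (G : Type) [Group G] [Finite G] (i : ℕ), i.Coprime (Nat.card G) → ∀ h : G,
    Nat.card {q : G × G // q.1 ^ 2 = 1 ∧ q.2 ^ 3 = 1 ∧ q.1 * q.2 = h ^ i} =
      Nat.card {q : G × G // q.1 ^ 2 = 1 ∧ q.2 ^ 3 = 1 ∧ q.1 * q.2 = h}

/-- **BCC** (1.5 h; hypothesis `S_BCB`). The same for generating pairs: if `G` is finite, generated
by `x, y` with `x² = y³ = 1` and `i` is coprime to `|G|`, then `G` is generated by some `x', y'` with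
`x'² = y'³ = 1` and `x'y' = (xy)ⁱ`.

Proof. For a subgroup `H` of `G` and `h ∈ G` let `g_H(h)` be the number of pairs `(x, y)` with
`x² = y³ = 1`, `xy = h` and `closure {x, y} = H`. Claim: `g_H(hⁱ) = g_H(h)` for all `H` and `h`
(strong induction on `H`, e.g. on `Nat.card H`; `Subgroup G` is finite). If `h ∉ H` then `hⁱ ∉ H`
(`h` is a power of `hⁱ` because `i` is coprime to the order of `h`) and both are `0`. If `h ∈ H`: the
number of pairs in `H` (automatically `x, y ∈ H`) with `x² = y³ = 1`, `xy = h` is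
`∑_{K ≤ H} g_K(h)` (group the pairs by `closure {x, y}`), and by BCB for the group `H` (`i` is
coprime to `|H|`, which divides `|G|`) it is the same for `hⁱ`; by induction the terms with `K < H`
agree, hence so does the term `K = H`. Take `H = ⊤`, `h = xy`: `g_⊤((xy)ⁱ) = g_⊤(xy) ≥ 1`. -/
def S_BCC : Prop :=
  ∀ (G : Type) [Group G] [Finite G] (i : ℕ), i.Coprime (Nat.card G) → ∀ x y : G,
    x ^ 2 = 1 → y ^ 3 = 1 → Subgroup.closure {x, y} = (⊤ : Subgroup G) →
      ∃ x' y' : G, x' ^ 2 = 1 ∧ y' ^ 3 = 1 ∧ Subgroup.closure {x', y'} = (⊤ : Subgroup G) ∧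
        x' * y' = (x * y) ^ i

/-- **BCD** (1 h; hypothesis `S_BCC`). If `N` is the only normal subgroup of `Δ` of its (finite)
index then for every `i` coprime to the index there is an automorphism of `Δ/N` with `z̄ ↦ z̄ⁱ`.

Proof. Apply BCC in `G = Δ/N` to `x̄, ȳ` (`closure_gens` of `Helper23/Hurwitz/Basic.lean`). As
`(x'y')⁷ = (z̄⁷)ⁱ = 1`, `exists_lift` gives `φ : Δ → G` with `φ x = x'`, `φ y = y'`; it is onto. Its
kernel is normal of index `|G| = [Δ : N]`, so it is `N`, and `φ` induces an isomorphism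
`α : Δ/N → Δ/N` (`QuotientGroup.quotientKerEquivOfSurjective` and `QuotientGroup.quotientMulEquivOfEq`,
or `QuotientGroup.lift` and finiteness) with `α(z̄) = φ(xy) = x'y' = z̄ⁱ`. -/
def S_BCD : Prop :=
  ∀ (N : Subgroup Delta) [N.Normal], N.index ≠ 0 →
    (∀ N' : Subgroup Delta, N'.Normal → N'.index = N.index → N' = N) →
    ∀ i : ℕ, i.Coprime N.index → ∃ α : (Delta ⧸ N) ≃* (Delta ⧸ N),
      α (QuotientGroup.mk' N (gx * gy)) = QuotientGroup.mk' N (gx * gy) ^ i

/-! ## Part B: abelian factors -/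

/-- **LIN** (1.5 h). `V` a finite-dimensional `F_p`-space, `p ≠ 7`, `Z⁷ = 1`, `Z ≠ 1`, `A`
invertible with `A Z = Z³ A`. Then `dim V ≥ 6`.

Proof. Base change to `k = AlgebraicClosure (ZMod p)` (`LinearMap.baseChange`,
`W = k ⊗ V`, same dimension); write `Z, A` for the extensions: `Z⁷ = 1`, `Z ≠ 1`, `AZ = Z³A`, `A`
injective. There is an eigenvalue `ζ ≠ 1` of `Z`: the range `R` of `Z - 1` is a nonzero
`Z`-invariant subspace, so `Z` has an eigenvector `v ∈ R`, `v ≠ 0`, `Zv = ζv`; if `ζ = 1` then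
`v = (Z-1)w` with `(Z-1)²w = 0`, so `w = Z⁷w = w + 7(Z-1)w = w + 7v`, `v = 0` (`7 ≠ 0` in `k`), a
contradiction. `ζ⁷ = 1`, so `ζ` has order `7`. If `Zv = ηv` then `Z³(Av) = AZv = η Av`, hence
`Z(Av) = Z¹⁵(Av) = (Z³)⁵(Av) = η⁵ Av`. So `v, Av, A²v, ..., A⁵v` are eigenvectors (nonzero) of `Z`
with eigenvalues `ζ, ζ⁵, ζ²⁵ = ζ⁴, ζ⁶, ζ², ζ³`, which are distinct; so they are linearly
independent (`Module.End.eigenvectors_linearIndependent`) and `dim ≥ 6`. -/
def S_LIN : Prop :=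
  ∀ (p : ℕ) [Fact p.Prime], p ≠ 7 → ∀ (V : Type) [AddCommGroup V] [Module (ZMod p) V]
    [Module.Finite (ZMod p) V] (Z A : V →ₗ[ZMod p] V), Z ^ 7 = 1 → Z ≠ 1 →
      Function.Injective A → A * Z = Z ^ 3 * A → 6 ≤ Module.finrank (ZMod p) V

/-- **OPP** (1 h). `G` finite, `B ≤ A` normal subgroups, `A ≠ B`, `p ∤ [G : A]`, `A/B` elementary
abelian of exponent `p`. Then `Opp p G` (the subgroup generated by the elements of `p`-power order)
has a nonzero homomorphism to `ℤ/p`, it is normal, its index is prime to `p`.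

Proof. `O = Opp p G` is normal (its generating set is closed under conjugation; `Subgroup.normal_closure`-like,
or `Subgroup.closure` of a conjugation-invariant set). It contains a Sylow `p`-subgroup `P`, so its
index divides `[G : P]`, prime to `p`. `O ≤ A`: for `g^(p^k) = 1` the image of `g` in `G/A` has order
dividing `p^k` and `|G/A|`, so it is trivial. `O` is not contained in `B`: otherwise `[G : B]` is
prime to `p`, hence `[A : B]` too, but `A/B ≠ 1` has exponent `p` (an element outside `B` has order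
`p` in `A/B`, so `p ∣ [A : B]`). Pick `o ∈ O \ B`. `A/B` is an `F_p`-vector space (the quotient group
`A ⧸ B.subgroupOf A` is commutative of exponent `p`; `AddCommGroup.zmodModule` on `Additive`), the
class of `o` is nonzero, so there is a linear functional `φ` with `φ(o) ≠ 0`
(`Module.exists_dual_forall_apply_ne_zero`/`Module.forall_dual_apply_eq_zero_iff`); `f = φ ∘ (O → A → A/B)` works. -/
def S_OPP : Prop :=
  ∀ (G : Type) [Group G] [Finite G] (p : ℕ) [Fact p.Prime] (A B : Subgroup G),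
    A.Normal → B.Normal → B ≤ A → A ≠ B → ¬ p ∣ A.index → (∀ a ∈ A, a ^ p ∈ B) →
      (∀ a ∈ A, ∀ b ∈ A, a * b * a⁻¹ * b⁻¹ ∈ B) →
        (Opp p G).Normal ∧ ¬ p ∣ (Opp p G).index ∧ ∃ f ∈ homsTo p (Opp p G), f ≠ 0

/-- **TRF** (1 h). `G` finite and perfect, `O` normal of index prime to `p`, `f : O → ℤ/p` a
homomorphism invariant under conjugation by `G`. Then `f = 0`.

Proof. `D = {g ∈ O : f g = 0}` (a subgroup of `G`) is normal in `G` because `f` is invariant. In
`Q = G/D` the image `C` of `O` is central: for `o ∈ O`, `g ∈ G`: `f(g o g⁻¹ o⁻¹) = f(o) - f(o) = 0`.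
The homomorphism `MonoidHom.transferCenterPow Q : Q → center Q`, `q ↦ q^m`, `m = [Q : center Q]`,
composed with `G → Q` is trivial as `G` is perfect (`center Q` is commutative). So `o^m ∈ D` for
`o ∈ O`: `m f(o) = 0`. `m` divides `[Q : C] = [G : O]`, which is prime to `p`; so `f(o) = 0`. -/
def S_TRF : Prop :=
  ∀ (G : Type) [Group G] [Finite G] (p : ℕ) [Fact p.Prime] (O : Subgroup G), Perf G →
    ∀ hO : O.Normal, ¬ p ∣ O.index → ∀ f ∈ homsTo p O,
      (∀ (g : G) (o : O), f ⟨g * o.1 * g⁻¹, hO.conj_mem o.1 o.2 g⟩ = f o) → f = 0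

/-- **DIM** (0.7 h). If the space of homomorphisms `O → ℤ/p` has dimension at least `6` then `p⁶`
divides `|O|`.

Proof. See `eval_surjective` in `Helper23/Hurwitz/Count.lean` (stated for every group): six linearly
independent homomorphisms give a surjective homomorphism `O → (ℤ/p)⁶`; then
`p⁶ = |(ℤ/p)⁶|` divides `|O|` (`Subgroup.card_dvd_of_surjective`). -/
def S_DIM : Prop :=
  ∀ (G : Type) [Group G] [Finite G] (p : ℕ) [Fact p.Prime] (O : Subgroup G),
    6 ≤ Module.finrank (ZMod p) (homsTo p O) → p ^ 6 ∣ Nat.card O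

/-- **CLA** (1.5 h; hypotheses `S_LIN`, `S_OPP`, `S_TRF`, `S_DIM`). `G` finite and perfect,
generated as a normal subgroup by `z` with `z⁷ = 1`, with an automorphism `α`, `α(z) = zⁱ`,
`i ≡ 3 mod 7`. If `p ≠ 7` and `A/B` is a nontrivial elementary abelian `p`-section of normal
subgroups with `p ∤ [G : A]` then `p⁶` divides `|G|`.

Proof. Let `O = Opp p G` and `X = homsTo p O`, nonzero by OPP, finite-dimensional. `α(O) = O`
(`α` permutes the elements of `p`-power order). Let `(Zf)(k) = f(z⁻¹ k z)` and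
`(Af)(k) = f(α⁻¹(k))` on `X`; both are linear bijections of `X`. More generally put
`(ρ(g)f)(k) = f(g⁻¹ k g)`, `ρ(gh) = ρ(g)ρ(h)`. `(A ρ(g) f)(k) = f(g⁻¹ α⁻¹(k) g) =
f(α⁻¹(α(g)⁻¹ k α(g))) = (ρ(α g) A f)(k)`. Hence `A Z = ρ(zⁱ) A = ρ(z)³ A = Z³ A` and `Z⁷ = 1`.
`Z ≠ 1`: otherwise `{g : ρ(g) f = f for all f ∈ X}` is a normal subgroup containing `z`, so it is `G`,
every `f ∈ X` is `G`-invariant, `f = 0` by TRF, contradicting `X ≠ 0`. LIN gives
`dim X ≥ 6`, DIM gives `p⁶ ∣ |O|`, which divides `|G|`. -/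
def S_CLA : Prop :=
  ∀ (G : Type) [Group G] [Finite G] (p : ℕ) [Fact p.Prime] (A B : Subgroup G) (z : G) (i : ℕ)
    (α : G ≃* G), Perf G → z ^ 7 = 1 → (∀ M : Subgroup G, M.Normal → z ∈ M → M = ⊤) →
    α z = z ^ i → i % 7 = 3 → p ≠ 7 → A.Normal → B.Normal → B ≤ A → A ≠ B → ¬ p ∣ A.index →
    (∀ a ∈ A, a ^ p ∈ B) → (∀ a ∈ A, ∀ b ∈ A, a * b * a⁻¹ * b⁻¹ ∈ B) → p ^ 6 ∣ Nat.card G

/-! ## Part C: factors `PSL₂(p)` -/

/-- The upper unipotent element of `PSL₂(p)`. -/
def uu (p : ℕ) (x : ZMod p) : PSL2 p :=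
  QuotientGroup.mk (⟨!![1, x; 0, 1], by simp [Matrix.det_fin_two]⟩ : Matrix.SpecialLinearGroup (Fin 2) (ZMod p))

/-- The lower unipotent element of `PSL₂(p)`. -/
def vv (p : ℕ) (y : ZMod p) : PSL2 p :=
  QuotientGroup.mk (⟨!![1, 0; y, 1], by simp [Matrix.det_fin_two]⟩ : Matrix.SpecialLinearGroup (Fin 2) (ZMod p))

/-- **AUA** (1.5 h). For every automorphism `φ` of `PSL₂(p)`, `p` prime, there is `h` such that
`h φ(·) h⁻¹` maps the upper unipotent elements to upper unipotent elements and the lower ones to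
lower ones.

Proof. (a) Every `g ∈ PSL₂(p)` with `g^p = 1`, `g ≠ 1` fixes exactly one line of `F_p²`: let
`g = mk A`, `A^p = ±1 =: ε` (`A^p` is in the center; the center of `SL₂` consists of scalars `ε` with
`ε² = 1`, and `ε^p = ε`). `(A - ε)^p = A^p - ε^p = 0` (char `p`, `ε` scalar), so `A - ε` is nilpotent
and nonzero; its kernel `ℓ(g)` is a line, and any line fixed by `A` is in the kernel (the only
eigenvalue is `ε`). (b) `SL₂(F_p)` acts 2-transitively on lines, so two distinct lines can be moved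
to `⟨e₁⟩, ⟨e₂⟩`. (c) If `g ≠ 1`, `g^p = 1` fixes the line `⟨e₁⟩` then `g = u(x)` for some `x`
(`A = [[ε, b],[0, ε]] = ε u(εb)`), similarly for `⟨e₂⟩`. (d) `φ(u(1)) ≠ 1`, `φ(v(1)) ≠ 1` have order
`p` and do not commute (`u(1), v(1)` do not), so their lines are different (elements fixing the same
line and of order `p` commute by (c)). Choose `h` moving these lines to `⟨e₁⟩`, `⟨e₂⟩`. Then
`h φ(u(1)) h⁻¹ = u(a)` and `h φ(u(x)) h⁻¹ = u(ax)` as `u(x)` is a power of `u(1)` (`ZMod p` is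
generated by `1`), similarly for `v`. -/
def S_AUA : Prop :=
  ∀ (p : ℕ) [Fact p.Prime] (φ : PSL2 p ≃* PSL2 p), ∃ h : PSL2 p,
    (∀ x, ∃ x', h * φ (uu p x) * h⁻¹ = uu p x') ∧ (∀ y, ∃ y', h * φ (vv p y) * h⁻¹ = vv p y')

/-- **AUB** (1.5 h). An automorphism of `PSL₂(p)` mapping upper (lower) unipotents to upper (lower)
unipotents is conjugation by a diagonal matrix `diag(a, 1)`: it maps
`[[A₀₀, A₀₁], [A₁₀, A₁₁]]` to `[[A₀₀, a A₀₁], [a⁻¹ A₁₀, A₁₁]]`.

Proof. `u : ZMod p → PSL₂(p)` is an injective homomorphism (from the additive group), so there are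
`a, b ∈ F_p` with `φ(u(1)) = u(a)`, `φ(v(1)) = v(b)`, hence `φ(u(x)) = u(ax)`, `φ(v(y)) = v(by)`
(`x` is a natural multiple of `1`); `a ≠ 0`. Let `ψ` be the composition of `φ` with conjugation by
`diag(a⁻¹, 1)` (this is an automorphism of `PSL₂(p)`; or avoid composition and calculate directly):
`ψ(u(x)) = u(x)`, `ψ(v(y)) = v(cy)` with `c = ab`. The element `w = u(1) v(-1) u(1)` is the class of
`[[0, 1], [-1, 0]]` and `w u(1) w⁻¹ = v(-1)`. Apply `ψ`: with `w' = u(1) v(-c) u(1)`, the class of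
`[[1 - c, 2 - c], [-c, 1 - c]]`: `w' u(1) w'⁻¹ = v(-c)`, i.e. `w' u(1) = v(-c) w'` in `PSL₂`:
`[[1-c, 3-2c], [-c, 1-2c]] = ± [[1-c, 2-c], [-c(1-c) - c, -c(2-c) + 1 - c]]`. Compare the entries: if
the sign is `+`: the entries `01` give `3 - 2c = 2 - c`, `c = 1`. If the sign is `-` (`p` odd;
the scalar `ε` satisfies `ε² = 1`): the entries `00` give `2(1-c) = 0`, `c = 1`; in characteristic `2`
the sign is `+`. So `ab = 1`, and `φ` and conjugation by `diag(a, 1)` agree on all `u(x)`, `v(y)`,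
which generate `SL₂(F_p)` (`Matrix.SpecialLinearGroup.SL2.transvection_induction` or
`SL2Gen.SL_card_two_lineStab_sup_eq_top`, see `Mathlib/LinearAlgebra/Projectivization/PSL/PSL2.lean`). -/
def S_AUB : Prop :=
  ∀ (p : ℕ) [Fact p.Prime] (φ : PSL2 p ≃* PSL2 p),
    (∀ x, ∃ x', φ (uu p x) = uu p x') → (∀ y, ∃ y', φ (vv p y) = vv p y') →
      ∃ a : ZMod p, a ≠ 0 ∧ ∀ A B : Matrix.SpecialLinearGroup (Fin 2) (ZMod p),
        B.1 = !![A.1 0 0, a * A.1 0 1; a⁻¹ * A.1 1 0, A.1 1 1] →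
          φ (QuotientGroup.mk A) = QuotientGroup.mk B

/-- **AUC** (0.7 h; hypotheses `S_AUA`, `S_AUB`). Every automorphism of `PSL₂(p)` is conjugation by
an invertible matrix.

Proof. With `h = mk C` from AUA, `φ' = h φ(·) h⁻¹` is conjugation by `D = diag(a, 1)` (AUB), so `φ` is
conjugation by `g = C⁻¹ D`. -/
def S_AUC : Prop :=
  ∀ (p : ℕ) [Fact p.Prime] (φ : PSL2 p ≃* PSL2 p), ∃ g : Matrix.GeneralLinearGroup (Fin 2) (ZMod p),
    ∀ A B : Matrix.SpecialLinearGroup (Fin 2) (ZMod p),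
      (g : Matrix (Fin 2) (Fin 2) (ZMod p)) * A.1 = B.1 * (g : Matrix (Fin 2) (Fin 2) (ZMod p)) →
        φ (QuotientGroup.mk A) = QuotientGroup.mk B

/-- **TRC** (1.5 h; hypothesis `S_AUC`). For a prime `p > 7` no automorphism of `PSL₂(p)` maps an
element `z` of order `7` to `zⁱ` with `i ≡ 3 mod 7`.

Proof. Let `φ` be conjugation by `g` (AUC), `z = mk A`. `A⁷` is in the center, so `A⁷ = ε`,
`ε = ±1`; replacing `A` by `εA` we may assume `A⁷ = 1` (`ε⁷ = ε`), `A ≠ 1`. Put `B = g A g⁻¹ ∈ SL₂`;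
`φ(z) = mk B = zⁱ = mk (Aⁱ)`, so `B = δ Aⁱ`, `δ = ±1`; taking seventh powers `1 = δ⁷ = δ`, so
`tr A = tr B = tr Aⁱ = tr A³` (`A⁷ = 1`, `i ≡ 3`). Let `τ = tr A`; Cayley-Hamilton `A² = τA - 1`
gives `tr A^(j+2) = τ tr A^(j+1) - tr A^j`. Over `k = AlgebraicClosure (ZMod p)` take `ζ` with
`ζ² - τζ + 1 = 0`; `ζ` is an eigenvalue of `A`, so `ζ⁷ = 1`, and `tr Aʲ = ζʲ + ζ⁻ʲ` for all `j`
(induction by `A^(j+2) = τ A^(j+1) - A^j`). `ζ ≠ 1`: otherwise `τ = 2`, `(A-1)² = 0`,
`1 = A⁷ = 1 + 7(A - 1)`, `A = 1`. From `ζ³ + ζ⁻³ = ζ + ζ⁻¹`: `(ζ² - 1)(ζ⁴ - 1) = 0` (multiply by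
`ζ³`: `ζ⁶ + 1 - ζ⁴ - ζ² = (ζ² - 1)(ζ⁴ - 1)`), so `ζ² = 1` or `ζ⁴ = 1`, and with `ζ⁷ = 1`: `ζ = 1`,
a contradiction. -/
def S_TRC : Prop :=
  ∀ (p : ℕ) [Fact p.Prime], 7 < p → ∀ (φ : PSL2 p ≃* PSL2 p) (z : PSL2 p) (i : ℕ),
    z ^ 7 = 1 → z ≠ 1 → i % 7 = 3 → φ z ≠ z ^ i

/-- **OUT** (1 h; hypothesis `S_AUC`). Commutators of automorphisms of `PSL₂(p)` are inner.

Proof. `φ, ψ` are conjugation by `g, h ∈ GL₂(F_p)`; then `φψφ⁻¹ψ⁻¹` is conjugation by
`c = g h g⁻¹ h⁻¹`, which has determinant `1`: it is the inner automorphism of `mk c`. (For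
`φ⁻¹`: if `φ` is conjugation by `g` then `φ⁻¹` is conjugation by `g⁻¹`.) -/
def S_OUT : Prop :=
  ∀ (p : ℕ) [Fact p.Prime] (φ ψ : MulAut (PSL2 p)), ∃ t : PSL2 p,
    φ * ψ * φ⁻¹ * ψ⁻¹ = MulAut.conj t

/-- **QUO** (1.5 h; hypothesis `S_OUT`). `G` finite perfect, `L ≤ K` normal subgroups with
`K/L ≅ PSL₂(p)`, `p > 3` prime. Then `G/C ≅ PSL₂(p)` where `C` is the centraliser of `K/L`: there is
`f : G → PSL₂(p)` onto with `f g = 1 ↔ g ∈ Cen K L`.

Proof. Let `e : K → T = PSL₂(p)` be onto with kernel `L` (`FacIso`). `G` acts on `K/L ≅ T` by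
conjugation: `c : G → MulAut T`, `c(g)(e k) = e(g k g⁻¹)` (well defined as `L` is normal in `G`).
`Inn = range MulAut.conj` is normal in `MulAut T` and `MulAut T / Inn` is commutative by OUT, so
`G → MulAut T / Inn` is trivial (`G` perfect): `c(g) ∈ Inn` for every `g`. `MulAut.conj : T → MulAut T`
is injective: `T` is simple (`Matrix.ProjectiveSpecialLinearGroup.rank_two_simple`, `p ≥ 5 ≥ 4`) and not
commutative (`u(1), v(1)` do not commute), so its center is trivial. So `c` factors through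
`f : G → T` with `c(g) = conj (f g)`; `f` is a homomorphism; for `k ∈ K`: `c(k) = conj (e k)`, so
`f(k) = e(k)` and `f` is onto. `f(g) = 1 ↔ c(g) = 1 ↔ e(g k g⁻¹) = e(k)` for all `k ∈ K`
`↔ g k g⁻¹ k⁻¹ ∈ L` for all `k ∈ K`. -/
def S_QUO : Prop :=
  ∀ (G : Type) [Group G] [Finite G] (p : ℕ) [Fact p.Prime] (K L : Subgroup G), Perf G → 3 < p →
    K.Normal → L.Normal → L ≤ K → FacIso K L (PSL2 p) →
      ∃ f : G →* PSL2 p, Function.Surjective f ∧ ∀ g : G, f g = 1 ↔ g ∈ Cen K L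

/-- **JHU** (1.2 h). `f : G → T` onto with `T` nonabelian simple, `K` a chief series of `G`: for some
`j`, `K j / K (j+1) ≅ T` and the kernel of `f` is the centraliser of `K j / K (j+1)`.

Proof. `f(K 0) = T ≠ 1 = f(K r)`; `f(K j)` is normal in `T`, so it is `1` or `T`; let `j < r` be such
that `f(K j) = T` and `f(K (j+1)) = 1`. Let `R = ker f`. `K j ∩ R` is normal in `G`, contains
`K (j+1)`, is contained in `K j` and differs from `K j`; by maximality it is `K (j+1)`. So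
`f|K j` is onto with kernel `K (j+1)`: `FacIso`. For `g ∈ R`, `k ∈ K j`: `g k g⁻¹ k⁻¹` is in `K j` and in
`R`, so in `K (j+1)`: `R ≤ Cen`. Conversely if `g ∈ Cen` then `f(g)` commutes with `f(k)` for all
`k ∈ K j`, i.e. with `T`; the center of `T` is trivial (normal, not `T`), so `f(g) = 1`. -/
def S_JHU : Prop :=
  ∀ (G : Type) [Group G] [Finite G] (T : Type) [Group T] (f : G →* T) (r : ℕ) (K : ℕ → Subgroup G),
    NS T → Function.Surjective f → IsChiefSeries r K →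
      ∃ j < r, FacIso (K j) (K (j + 1)) T ∧ ∀ g : G, f g = 1 ↔ g ∈ Cen (K j) (K (j + 1))

/-- **PSM** (1.2 h; hypotheses `S_TRC`, `S_QUO`, `S_JHU`). `G` finite, perfect, generated as a normal
subgroup by `z`, `z⁷ = 1`, with an automorphism `α`, `α(z) = zⁱ`, `i ≡ 3 mod 7`. If a chief series
has a factor `≅ PSL₂(p)`, `p > 7` prime, then it has at least two of them.

Proof. Let `f` be the homomorphism of QUO for the factor `j`, `f' = f ∘ α⁻¹` (or `f ∘ α`), also onto
`T = PSL₂(p)`, which is nonabelian simple. JHU for `f'` gives `j'` with `K j'/K (j'+1) ≅ T` and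
`ker f' = Cen (K j') (K (j'+1))`. If `j' = j` then `ker f' = ker f`, so there is an automorphism `φ` of
`T` with `φ ∘ f' = f`, equivalently (with `f' = f ∘ α⁻¹`) `φ(f(g)) = f(α(g))`; then
`φ(f z) = f(α z) = (f z)ⁱ`, `(f z)⁷ = 1` and `f z ≠ 1` (otherwise `z ∈ ker f`, a normal subgroup, so
`ker f = G`, but `T ≠ 1`), contradicting TRC. So `j' ≠ j`. -/
def S_PSM : Prop :=
  ∀ (G : Type) [Group G] [Finite G] (p : ℕ) [Fact p.Prime] (z : G) (i : ℕ) (α : G ≃* G) (r : ℕ)
    (K : ℕ → Subgroup G), Perf G → z ^ 7 = 1 → (∀ M : Subgroup G, M.Normal → z ∈ M → M = ⊤) →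
    α z = z ^ i → i % 7 = 3 → 7 < p → IsChiefSeries r K → ∀ j < r, FacIso (K j) (K (j + 1)) (PSL2 p) →
      ∃ j' < r, j' ≠ j ∧ FacIso (K j') (K (j' + 1)) (PSL2 p)

/-! ## Part D: chief series and the data of an order -/

/-- **CHF** (2 h). Structure of a chief factor `K/L` of a finite group.

Proof. Let `R` be maximal among the proper subgroups of `K` that are normal in `K` and contain `L`
(finite, nonempty); `K/R` is simple. For `g ∈ G` let `R^g = g R g⁻¹`; it is normal in `K` (as `K` is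
normal in `G`), contains `L`, and `K/R^g ≅ K/R` (same order). The intersection `I` of all `R^g` is
normal in `G`, `L ≤ I ≤ K`, `I ≠ K`, so `I = L`. For every finite set `S ⊆ G` the index in `K` of
`D_S = K ∩ ⋂_{g ∈ S} R^g` is a power of `|K/R|`: induction, `[D_S : D_S ∩ R^g] = [D_S R^g : R^g]` and
`D_S R^g` is normal in `K` between `R^g` and `K`, and `R^g` is a maximal normal subgroup of `K`, so it
is `R^g` or `K`: the index is `1` or `|K/R|`. With `S = G`: `[K : L] = |K/R|^k`; `k ≥ 1` as `L ≠ K`;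
if `k = 1` then `[K : L] = [K : R]` and `L ≤ R` give `R = L`. If `K/R` is commutative it is of prime
order `q` (`IsSimpleGroup.prime_card`), so for `a, b ∈ K` the elements `a^q` and `a b a⁻¹ b⁻¹` lie in
all `R^g` (`K/R^g` has order `q` too, or conjugate), hence in `L`: first alternative. Otherwise the
second. -/
def S_CHF : Prop :=
  ∀ (G : Type) [Group G] [Finite G] (K L : Subgroup G), IsChief K L →
    (∃ q k : ℕ, q.Prime ∧ 1 ≤ k ∧ L.relIndex K = q ^ k ∧ (∀ a ∈ K, a ^ q ∈ L) ∧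
      (∀ a ∈ K, ∀ b ∈ K, a * b * a⁻¹ * b⁻¹ ∈ L)) ∨
    (∃ (R : Subgroup K) (_ : R.Normal) (k : ℕ), L.subgroupOf K ≤ R ∧ NS (K ⧸ R) ∧ 1 ≤ k ∧
      L.relIndex K = Nat.card (K ⧸ R) ^ k ∧ (k = 1 → R = L.subgroupOf K))

/-- **SER** (0.7 h). Every finite group has a chief series.

Proof. Claim: for every normal `H` there are `r` and `K` with `K 0 = H`, `K r = ⊥` and all
`K j / K (j+1)` (`j < r`) chief; strong induction on `|H|`: if `H = ⊥` take `r = 0`; otherwise choose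
`L` maximal among the normal subgroups of `G` with `L < H` (finite, contains `⊥`), apply induction to
`L` and shift the sequence by one. -/
def S_SER : Prop :=
  ∀ (G : Type) [Group G] [Finite G], ∃ (r : ℕ) (K : ℕ → Subgroup G), IsChiefSeries r K

/-- **CMB** (0.8 h). Combinatorics of the product of the orders.

Proof. Group the factors by the value `t`: `∏_{j ∈ J} (t j)^(k j) = ∏_{v ∈ t(J)} v^(m v)` with
`m v = ∑_{j ∈ J, t j = v} k j` (`Finset.prod_fiberwise_of_maps_to`). If `v = t j ∈ S` then `v^(m v) ∈ S`.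
Otherwise `v², v³ ∈ S` and `m v ≥ 2` (either one `k j ≥ 2` or two different indices with `k ≥ 1`), and
every `m ≥ 2` is `2a + 3b`. -/
def S_CMB : Prop :=
  ∀ (S : Submonoid ℕ) (J : Finset ℕ) (t k : ℕ → ℕ), (∀ j ∈ J, 1 ≤ k j) →
    (∀ j ∈ J, t j ∈ S ∨ (t j ^ 2 ∈ S ∧ t j ^ 3 ∈ S ∧
      (2 ≤ k j ∨ ∃ j' ∈ J, j' ≠ j ∧ t j' = t j))) → ∏ j ∈ J, t j ^ k j ∈ S

/-- **DAT** (2.5 h; hypotheses `S_CLA`, `S_PSM`, `S_CHF`, `S_SER`, `S_CMB`). `G` finite, perfect,
generated as a normal subgroup by `z`, `z⁷ = 1`, with an automorphism `α`, `α(z) = zⁱ`,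
`i ≡ 3 mod 7`, and every nonabelian composition factor of `G` satisfies `X` or is a `PSL₂(p)`. Then
`Data X |G|`.

Proof. Take a chief series (SER). `|G| = ∏_{j < r} [K j : K (j+1)]` (`Subgroup.relIndex_mul_index`,
induction). Let `J ⊆ {0, ..., r-1}` be the set of the `j` for which the second alternative of CHF
holds with data `R_j`, `t_j = |K j / R_j|`, `k_j`, and `J'` the remaining ones, with `q_j, k_j` from the
first alternative. `a = ∏_{j ∈ J} t_j^{k_j}`, `e = ∏_{j ∈ J'} q_j^{k_j}`, `|G| = a e`.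

(1) `a ∈ closure (atoms X)` by CMB. For `j ∈ J` the group `T_j = K j / R_j` is a nonabelian composition
factor (`K j` normal, so subnormal: `Subgroup.Normal.isSubnormal`), so `X T_j` or `IsPSL2 T_j`. If
`¬ IsPSL2 T_j` then `t_j ∈ simpleOrders X`. If `T_j ≅ PSL₂(p)` with `p ≤ 7` then `t_j = w p` is an
atom. If `T_j ≅ PSL₂(p)` with `p > 7`: `t_j² = w p ^ 2` and `t_j³` are atoms, and either `k_j ≥ 2` or
`k_j = 1`, `R_j = K (j+1)` (in `K j`), so `FacIso (K j) (K (j+1)) (PSL2 p)`, and by PSM there is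
`j' ≠ j` with `K j' / K (j'+1) ≅ PSL₂(p)`; then `j' ∈ J` (the factor is not commutative) and
`t_{j'} = t_j`: `T_{j'}` is a quotient of `K j'/K (j'+1) ≅ PSL₂(p)`, which is simple
(`Matrix.ProjectiveSpecialLinearGroup.rank_two_simple`), and nontrivial, so `t_{j'} = w p`. (To see
`j' ∈ J`: if the first alternative held, `PSL₂(p)` would be commutative. Choose the alternatives by
`Classical.choice`/`by_cases` on the first alternative: `J'` = first alternative holds.)

(2) `e = b c`: for a prime `p` let `v_p` be the exponent of `p` in `e`; `b = ∏ p^{v_p}` over the primes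
dividing `7a`, `c = ∏ p^{v_p}` over the primes not dividing `7a` (e.g. `b` = the part of `e` supported
on the primes dividing `7a`; `Nat.factorization`, `Finset.prod` over `e.primeFactors`). Let `p ∣ c` be
prime; `p ≠ 7`, `p ∤ a`, `p ∣ e`. Let `j` be the smallest index with `p ∣ [K j : K (j+1)]`; then
`p ∤ [G : K j]`. `j ∉ J` (`p ∤ t_j`), so `j ∈ J'` and `q_j = p`. CLA with `A = K j`, `B = K (j+1)`:
`p⁶ ∣ |G| = a e`, so `p⁶ ∣ e` and `p⁶ ∣ c`. -/
def S_DAT : Prop :=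
  ∀ (X : (T : Type) → [Group T] → Prop) (G : Type) [Group G] [Finite G] (z : G) (i : ℕ)
    (α : G ≃* G), Perf G → z ^ 7 = 1 → (∀ M : Subgroup G, M.Normal → z ∈ M → M = ⊤) →
    α z = z ^ i → i % 7 = 3 → NonabFactors G (fun T _ => X T ∨ IsPSL2 T) → Data X (Nat.card G)

/-- **UDA** (0.8 h; hypotheses `S_BCD`, `S_DAT`). For `g ∈ UX X`, `Data X (84 (g - 1))`.

Proof. `hurwitzNumber g = 1` gives exactly one smooth normal subgroup `N` of index
`n = 84(g-1) ≥ 84`. Every normal subgroup `N'` of index `n` is `≠ ⊤`, hence smooth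
(`isSmooth_of_ne_top`), so `N` is the only normal subgroup of index `n`. Choose a prime
`i > n` with `i ≡ 3 mod 7` (`Nat.forall_exists_prime_gt_and_modEq`), it is coprime to `n`; BCD gives
`α`. `G = Δ/N` is perfect (`hom_comm_trivial`), `z̄⁷ = 1` (`gz_pow`), a normal subgroup of `G` containing
`z̄` is everything (`eq_top_of_gz_mem` for its preimage), and `|G| = n`. Apply DAT. -/
def S_UDA : Prop :=
  ∀ (X : (T : Type) → [Group T] → Prop), ∀ g ∈ UX X, Data X (84 * (g - 1))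

/-! ## Part E: counting -/

/-- **CRD** (1.5 h). `2 |PSL₂(p)| = p (p² - 1)` for an odd prime `p`.

Proof. `Matrix.card_GL_field` (`n = 2`): `|GL₂(F_p)| = (p² - 1)(p² - p)`. `det : GL₂(F_p) → F_p^×` is
onto with kernel the image of `SL₂(F_p)` (`Matrix.SpecialLinearGroup.toGL` is injective with range
`det = 1`), so `|SL₂| (p - 1) = |GL₂|`, `|SL₂| = p (p² - 1)`. The center of `SL₂(F_p)` is `{1, -1}` of
order `2` (`Matrix.SpecialLinearGroup.mem_center_iff`: scalar matrices `r` with `r² = 1`). -/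
def S_CRD : Prop :=
  ∀ (p : ℕ) [Fact p.Prime], p ≠ 2 → 2 * w p = p * (p ^ 2 - 1)

/-- **ZPR** (0.7 h). `Z s (A B) ≤ Z s A * Z s B`.

Proof. `A × B → A * B`, `(a, b) ↦ ab` is onto (`ENNReal.tsum_le_tsum_comp_of_surjective`),
`(ab)^(-s) = a^(-s) b^(-s)` (`Real.mul_rpow`), and `ENNReal.tsum_prod`/`ENNReal.tsum_mul_left`,
`ENNReal.tsum_mul_right`. -/
def S_ZPR : Prop :=
  ∀ (s : ℝ) (A B : Set ℕ), Z s {n | ∃ a ∈ A, ∃ b ∈ B, n = a * b} ≤ Z s A * Z s B

/-- **ZGN** (1.5 h; hypothesis `S_ZPR`). The monoid generated by `A`.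

Proof. (a) If `A ⊆ {n ≥ 2}` and `Z s A < 1`: every element of `closure A` is a product of `k` elements
of `A` for some `k`; `closure A = ⋃_k A^k` with `A^0 = {1}`, `A^(k+1) = A * A^k`, so by ZPR and
`ENNReal.tsum_iUnion_le_tsum`-like subadditivity `Z s (closure A) ≤ ∑_k (Z s A)^k < ∞`
(`ENNReal.tsum_geometric`). (b) In general `Z s A < ∞`: there is a finite `F ⊆ A` with
`Z s (A \ F) < 1` (tails of a convergent sum; e.g. `ENNReal.tendsto_tsum_compl_atTop_zero`). Induct on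
`F`: `closure (A' ∪ {a}) = closure A' * {a^j : j ≥ 0}` (commutative monoid: `Submonoid.closure_union`,
`Submonoid.mem_sup`, `Submonoid.mem_closure_singleton`), and `Z s {a^j} = ∑_j (a^(-s))^j < ∞` because
`a ≥ 2`, `s > 0`. -/
def S_ZGN : Prop :=
  ∀ (s : ℝ) (A : Set ℕ), 0 < s → (∀ a ∈ A, 2 ≤ a) → Z s A < ⊤ →
    Z s (Submonoid.closure A : Set ℕ) < ⊤

/-- **ZRD** (1.5 h). Multiplying by numbers supported on the primes dividing `7a`.

Proof. Let `0 < s' < s`, `Z s' A < ∞`, `A ⊆ {n ≥ 1}`. `Z s (S) ≤ ∑_{a ∈ A} a^(-s) ∑_{b : rad b ∣ 7a} b^(-s)`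
(onto map from a sigma type). The inner sum is `∏_{p ∣ 7a} (1 - p^(-s))⁻¹`
(`EulerProduct.summable_and_hasSum_factoredNumbers_prod_filter_prime_geometric` with
`Nat.factoredNumbers (7a).primeFactors`; the `b = 0` does not occur when `a ≥ 1`... note that `b = 0`
satisfies the hypothesis only if every prime divides `7a`, impossible). Each factor is at most
`M = (1 - 2^(-s))⁻¹`; with `ε = s - s'`, `M ≤ p^ε` for all `p > P₀`, so the product is at most
`M^(P₀+1) ∏_{p ∣ 7a} p^ε ≤ M^(P₀+1) (7a)^ε` (the product of the distinct primes dividing `7a` is at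
most `7a`). So `Z s S ≤ C ∑_{a ∈ A} a^(-s) a^ε = C Z s' A < ∞`. -/
def S_ZRD : Prop :=
  ∀ (s' s : ℝ) (A : Set ℕ), 0 < s' → s' < s → (∀ a ∈ A, 1 ≤ a) → Z s' A < ⊤ →
    Z s {n | ∃ a ∈ A, ∃ b : ℕ, n = a * b ∧ ∀ p : ℕ, p.Prime → p ∣ b → p ∣ 7 * a} < ⊤

/-- **ZFL** (1.2 h; hypothesis `S_ZGN`). `6`-full numbers.

Proof. Let `A = {p^j : p prime, 6 ≤ j ≤ 11}`; `Z s A ≤ ∑_{j=6}^{11} ∑_p p^(-js) < ∞` as `6s > 1`. A
`6`-full `c ≥ 1` is the product of `p^e` with `e ≥ 6` over its primes, and `p^e` with `e = 6q + r`,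
`q ≥ 1`, `0 ≤ r < 6` is `(p^6)^(q-1) p^(6+r)`: so `c ∈ closure A`. (`c = 0` is excluded in the set.) -/
def S_ZFL : Prop :=
  ∀ s : ℝ, 1 / 6 < s → Z s {c | c ≠ 0 ∧ ∀ p : ℕ, p.Prime → p ∣ c → p ^ 6 ∣ c} < ⊤

/-- **ZAT** (1.2 h; hypotheses `S_CRD`). The atoms.

Proof. `atoms X = simpleOrders X ∪ (finite set) ∪ {w p ^ 2, w p ^ 3 : p > 7}`. By CRD
`w p = p(p² - 1)/2 ≥ p³/4`, so `∑_p (w p)^(-2s) ≤ 4^(2s) ∑_p p^(-6s) < ∞` for `s > 1/6`, similarly for
`(w p)^3`. `Z s` of a union is at most the sum. Elements: a finite nonabelian (hence nontrivial)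
group has order `≥ 2`, `w p ≥ 2` (`PSL₂(p)` is nontrivial: `SL2Simple.PSL_nontrivial`; `PSL2 p` is
finite). -/
def S_ZAT : Prop :=
  ∀ (X : (T : Type) → [Group T] → Prop) (s : ℝ), 1 / 6 < s → Z s (simpleOrders X) < ⊤ →
    Z s (atoms X) < ⊤ ∧ ∀ a ∈ atoms X, 2 ≤ a

/-- **ZAB** (1.5 h; hypotheses `S_UDA`, `S_ZPR`, `S_ZGN`, `S_ZRD`, `S_ZFL`, `S_ZAT`). The upper bound.

Proof. Let `m = max (1/6) (abscissa (simpleOrders X))`. It suffices: for every real `s > m`,
`Summable (fun g : UX X => g^(-s))`; then `abscissa ≤ s` for all real `s > m`, hence `≤ m`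
(`le_of_forall_gt`/`EReal` density; if `m = ⊤` trivial). Given `s > m`, choose reals
`m < s' < s` (`s' > 1/6 > 0`). There is `r < s'` with `∑_{simpleOrders X} n^(-r) < ∞`
(definition of `sInf`), hence `Z s' (simpleOrders X) < ∞` (`n^(-s') ≤ n^(-r)` for `n ≥ 1`;
`Summable` of nonnegative reals gives `∑' ofReal < ∞`). By ZAT and ZGN `Z s' (closure (atoms X)) < ∞`,
all its elements are `≥ 1`; by ZRD, ZFL, ZPR the set `D` of all `n ≠ 0` with `Data X n` has
`Z s D < ∞`. By UDA `g ↦ 84(g-1)` maps `UX X` injectively into `D` (`g ≥ 2`), and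
`g^(-s) ≤ 84^s (84(g-1))^(-s)`... (`84(g-1) ≤ 84 g`, so `(84 g)^(-s) ≤ (84(g-1))^(-s)` and
`g^(-s) = 84^s (84g)^(-s)`). So `∑_{g ∈ UX X} g^(-s) < ∞`. -/
def S_ZAB : Prop :=
  ∀ (X : (T : Type) → [Group T] → Prop),
    abscissa (UX X) ≤ max ((1 / 6 : ℝ) : EReal) (abscissa (simpleOrders X))

/-! ## Part F: the lower bound -/

/-- **PSV** (1.2 h; hypothesis `S_CRD`). If `N` is normal of index `168` in `Δ` then
`Δ/N ≅ PSL₂(7)`.

Proof. `a = mk [[0, -1], [1, 0]]`, `b = mk [[0, 1], [-1, 1]]`-type elements of `PSL₂(7)`: with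
`A = [[0, -1], [1, 0]]`, `A⁻¹ [[1, 1], [0, 1]] = [[0, 1], [-1, 0]] [[1, 1], [0, 1]] = [[0, 1], [-1, -1]] =: B`:
`A² = -1`, `B³ = 1`, `AB = [[1, 1], [0, 1]]` of order `7`. `exists_lift` gives `f : Δ → PSL₂(7)` with
`f x = mk A`, `f y = mk B`; it is nontrivial. `|PSL₂(7)| = 168` (CRD), so the kernel is a normal
subgroup `≠ ⊤` whose index (= the order of the image) divides `168`; by `index_eq_168`
(`Helper23/Hurwitz/Order168.lean`) the index is `168`, so `f` is onto, and by `unique_168`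
(`Unique168.lean`) the kernel is `N`. -/
def S_PSV : Prop :=
  ∀ (N : Subgroup Delta) [N.Normal], N.index = 168 → Nonempty ((Delta ⧸ N) ≃* PSL2 7)

/-- **LOW** (1.8 h; hypothesis `S_PSV`). For a prime `ℓ > 168` and `K` normal of index `168 ℓ⁶` in
`Δ` every nonabelian composition factor of `Δ/K` is isomorphic to `PSL₂(7)`.

Proof. `exists_index_168` and `normal_le_of_index` (`Helper23/Hurwitz`) give a normal `N ≥ K` of index
`168`. `G = Δ/K`, `V = N/K` (image), normal of order `ℓ⁶`, `G/V ≅ Δ/N ≅ PSL₂(7)` simple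
(`Matrix.ProjectiveSpecialLinearGroup.rank_two_simple`, `7 ≥ 4`). Let `H` be subnormal in `G`, `M`
normal in `H`, `T = H/M` nonabelian simple. `V ∩ H` is a normal `ℓ`-subgroup of `H`; its image in `T` is
a normal `ℓ`-subgroup; if it is not trivial it is `T`, so `T` is a simple `ℓ`-group, hence commutative
(nontrivial center of a `p`-group: `IsPGroup.center_nontrivial`), a contradiction. So
`V ∩ H ≤ M`. Let `π : G → S = G/V`. `π(H)` is subnormal in the simple group `S` (image of a subnormal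
subgroup, induction on `IsSubnormal`, or look for `IsSubnormal.map`), so it is `1` or `S`
(`Subgroup.IsSubnormal.eq_bot_or_top_of_isSimpleGroup`). The map `H → T` factors through
`π|H : H → π(H)` (kernel `V ∩ H ≤ M`): there is a surjective `π(H) → T`; so `π(H) ≠ 1`, `π(H) = S`,
and `S → T` is onto with `S` simple and `T ≠ 1`, so it is an isomorphism (injective). So
`T ≅ S ≅ PSL₂(7)`. -/
def S_LOW : Prop :=
  ∀ l : ℕ, l.Prime → 168 < l → ∀ (K : Subgroup Delta) [K.Normal], K.index = 168 * l ^ 6 →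
    NonabFactors (Delta ⧸ K) (fun T _ => IsPSL2 T)

end Pool.Agent.Helper4.HZ
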