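import Pool.Agent.Helper4.HZ.Defs

/-!
# The orders of the known finite simple groups

`KnownOrders` is the set of the orders of the finite nonabelian simple groups of the
classification, except the groups `PSL₂(p)` with `p` prime and except the sporadic groups and the
Tits group (a finite set of orders). We show that `∑ m^(-s)` over it converges for `s > 1/6`.
-/

namespace Pool.Agent.Helper4.HZ

open scoped Nat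

/-- `|A_n| = n!/2`, `n ≥ 5`. -/
def altOrders : Set ℕ := {m | ∃ n : ℕ, 5 ≤ n ∧ m = n ! / 2}

/-- `|PSL₂(q)|` for the proper prime powers `q = p^k`, `k ≥ 2`. -/
def a1Orders : Set ℕ :=
  {m | ∃ p k : ℕ, p.Prime ∧ 2 ≤ k ∧ m = p ^ k * ((p ^ k) ^ 2 - 1) / Nat.gcd 2 (p ^ k - 1)}

/-- `|A_n(q)| = |PSL_{n+1}(q)|`. -/
def oA (n q : ℕ) : ℕ :=
  q ^ (n * (n + 1) / 2) * (∏ i ∈ Finset.Icc 1 n, (q ^ (i + 1) - 1)) / Nat.gcd (n + 1) (q - 1)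

/-- `|²A_n(q²)| = |PSU_{n+1}(q)|`. -/
def oTA (n q : ℕ) : ℕ :=
  q ^ (n * (n + 1) / 2) *
    (∏ i ∈ Finset.Icc 1 n, (if Even (i + 1) then q ^ (i + 1) - 1 else q ^ (i + 1) + 1)) /
      Nat.gcd (n + 1) (q + 1)

/-- `|B_n(q)| = |C_n(q)|`: the orders of `Ω_{2n+1}(q)` and `PSp_{2n}(q)`. -/
def oB (n q : ℕ) : ℕ :=
  q ^ (n ^ 2) * (∏ i ∈ Finset.Icc 1 n, (q ^ (2 * i) - 1)) / Nat.gcd 2 (q - 1)

/-- `|D_n(q)| = |PΩ⁺_{2n}(q)|`. -/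
def oD (n q : ℕ) : ℕ :=
  q ^ (n * (n - 1)) * (q ^ n - 1) * (∏ i ∈ Finset.Icc 1 (n - 1), (q ^ (2 * i) - 1)) /
    Nat.gcd 4 (q ^ n - 1)

/-- `|²D_n(q²)| = |PΩ⁻_{2n}(q)|`. -/
def oTD (n q : ℕ) : ℕ :=
  q ^ (n * (n - 1)) * (q ^ n + 1) * (∏ i ∈ Finset.Icc 1 (n - 1), (q ^ (2 * i) - 1)) /
    Nat.gcd 4 (q ^ n + 1)

/-- The orders of the classical groups of Lie type except `PSL₂(q)`. -/
def classicalOrders : Set ℕ :=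
  {m | ∃ p k n q : ℕ, p.Prime ∧ 1 ≤ k ∧ q = p ^ k ∧
    ((2 ≤ n ∧ (m = oA n q ∨ m = oTA n q ∨ m = oB n q)) ∨ (4 ≤ n ∧ (m = oD n q ∨ m = oTD n q)))}

/-- The orders of the exceptional groups of Lie type over `F_q`: `³D₄`, `G₂`, `F₄`, `E₆`, `²E₆`,
`E₇`, `E₈`. -/
def exceptionalOrders : Set ℕ :=
  {m | ∃ p k q : ℕ, p.Prime ∧ 1 ≤ k ∧ q = p ^ k ∧
    (m = q ^ 12 * (q ^ 8 + q ^ 4 + 1) * (q ^ 6 - 1) * (q ^ 2 - 1) ∨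
      m = q ^ 6 * (q ^ 6 - 1) * (q ^ 2 - 1) ∨
      m = q ^ 24 * (q ^ 12 - 1) * (q ^ 8 - 1) * (q ^ 6 - 1) * (q ^ 2 - 1) ∨
      m = q ^ 36 * (q ^ 12 - 1) * (q ^ 9 - 1) * (q ^ 8 - 1) * (q ^ 6 - 1) * (q ^ 5 - 1) *
        (q ^ 2 - 1) / Nat.gcd 3 (q - 1) ∨
      m = q ^ 36 * (q ^ 12 - 1) * (q ^ 9 + 1) * (q ^ 8 - 1) * (q ^ 6 - 1) * (q ^ 5 + 1) *
        (q ^ 2 - 1) / Nat.gcd 3 (q + 1) ∨
      m = q ^ 63 * (q ^ 18 - 1) * (q ^ 14 - 1) * (q ^ 12 - 1) * (q ^ 10 - 1) * (q ^ 8 - 1) *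
        (q ^ 6 - 1) * (q ^ 2 - 1) / Nat.gcd 2 (q - 1) ∨
      m = q ^ 120 * (q ^ 30 - 1) * (q ^ 24 - 1) * (q ^ 20 - 1) * (q ^ 18 - 1) * (q ^ 14 - 1) *
        (q ^ 12 - 1) * (q ^ 8 - 1) * (q ^ 2 - 1))}

/-- The orders of the Suzuki groups `²B₂(q)` and of the Ree groups `²F₄(q)` (`q = 2^(2k+1)`) and
`²G₂(q)` (`q = 3^(2k+1)`). -/
def suzukiReeOrders : Set ℕ :=
  {m | ∃ k q : ℕ, 1 ≤ k ∧
    ((q = 2 ^ (2 * k + 1) ∧ (m = q ^ 2 * (q ^ 2 + 1) * (q - 1) ∨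
        m = q ^ 12 * (q ^ 6 + 1) * (q ^ 4 - 1) * (q ^ 3 + 1) * (q - 1))) ∨
      (q = 3 ^ (2 * k + 1) ∧ m = q ^ 3 * (q ^ 3 + 1) * (q - 1)))}

/-- The orders of the finite nonabelian simple groups of the classification, without the `PSL₂(p)`,
`p` prime, and the `27` sporadic and Tits groups. -/
def KnownOrders : Set ℕ :=
  altOrders ∪ a1Orders ∪ classicalOrders ∪ exceptionalOrders ∪ suzukiReeOrders

end Pool.Agent.Helper4.HZ
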