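import Pool.Agent.Helper4.HZ.Goals
import Pool.Agent.Helper4.HZ.Known

/-!
# The orders of the known finite simple groups: packets

We show that `∑ m^(-s)` over the orders of the known simple groups except `PSL₂(p)` converges for
`s > 1/6`.
-/

namespace Pool.Agent.Helper4.HZ

/-- **KOA** (1 h). `Z s` is finite for `altOrders` and `suzukiReeOrders`, for every `s > 0`.

Proof. `Z s` of the range of a function `f : ℕ → ℕ` is at most `∑_n f(n)^(-s)`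
(`ENNReal.tsum_le_tsum_comp_of_surjective` onto the range). `n!/2 ≥ 2^(n-2)` for `n ≥ 2`
(`n! ≥ 2^(n-1)`), and `∑ 2^(-(n-2)s) < ∞`. `q²(q²+1)(q-1) ≥ q² ≥ 2^(2k)`, and the other orders are also
`≥ q ≥ 2^k`, `∑_k 2^(-ks) < ∞`. -/
def S_KOA : Prop := ∀ s : ℝ, 0 < s → Z s altOrders < ⊤ ∧ Z s suzukiReeOrders < ⊤

/-- **KOB** (1 h). `Z s a1Orders < ∞` for `s > 1/6`.

Proof. `q(q² - 1)/gcd(2, q-1) ≥ q(q²-1)/2 ≥ q³/4` (natural division by `g ∈ {1, 2}`, `g` divides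
`q²-1` as it divides `q-1`). With `q = p^k`, `k ≥ 2`, `p ≥ 2`:
`∑_p ∑_{k ≥ 2} (p^(3k)/4)^(-s) = 4^s ∑_p p^(-6s)/(1 - p^(-3s)) ≤ 4^s (1 - 2^(-3s))⁻¹ ∑_{n ≥ 2} n^(-6s) < ∞`. -/
def S_KOB : Prop := ∀ s : ℝ, 1 / 6 < s → Z s a1Orders < ⊤

/-- **KOI** (1.5 h). Lower bounds for the orders of the classical groups.

Proof. Let `N` be the numerator and `g` the `gcd`; `g` divides `N` in all cases: `gcd(n+1, q-1)` and
`gcd(2, q-1)` divide `q - 1`, which divides the factor `q² - 1` (`i = 1`); `gcd(n+1, q+1)` divides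
`q + 1`, which divides `q² - 1` (the factor `i = 1` of `oTA`, `i + 1 = 2` is even); `gcd(4, q^n ∓ 1)`
divides `q^n ∓ 1`. So `g * o(n, q) = N` (`Nat.mul_div_cancel'`). Use `q^m - 1 ≥ q^(m-1)` (`m ≥ 1`,
`q ≥ 2`), `q^m + 1 ≥ q^m`. `oA`, `oTA`: `N ≥ q^(n(n+1)/2) q^(1+2+...+n) = q^(n(n+1))`
(`Finset.prod_le_prod'`-type estimate, `∏_{i=1}^n q^i = q^(n(n+1)/2)`). For `n = 2`: `g ≤ 3`, so
`3 o ≥ q^6`, `12 o ≥ 2² q^6`. For `n ≥ 3`: `g ≤ q + 1 ≤ 2q`, so `2 o ≥ q^(n(n+1)-1) = q^6 q^(n²+n-7) ≥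
q^6 2^n` (`n² ≥ 7`). `oB`: `N ≥ q^(n²) ∏ q^(2i-1) = q^(2n²)`, `g ≤ 2`: `2 o ≥ q^(2n²) ≥ q^6 2^(2n²-6) ≥
q^6 2^n` (`2n² - 6 ≥ n` for `n ≥ 2`). `oD`: `N ≥ q^(n(n-1)) q^(n-1) q^((n-1)²) = q^(2n(n-1))`, `g ≤ 4`:
`4 o ≥ q^(2n(n-1)) ≥ q^6 2^n` (`2n(n-1) - 6 ≥ n` for `n ≥ 4`); `oTD`: `q^n + 1 ≥ q^(n-1)`, the same. -/
def S_KOI : Prop :=
  ∀ n q : ℕ, 2 ≤ q →
    (2 ≤ n → 2 ^ n * q ^ 6 ≤ 12 * oA n q ∧ 2 ^ n * q ^ 6 ≤ 12 * oTA n q ∧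
      2 ^ n * q ^ 6 ≤ 12 * oB n q) ∧
    (4 ≤ n → 2 ^ n * q ^ 6 ≤ 12 * oD n q ∧ 2 ^ n * q ^ 6 ≤ 12 * oTD n q)

/-- **KOC** (1 h; hypothesis `S_KOI`). `Z s classicalOrders < ∞` for `s > 1/6`.

Proof. `classicalOrders` is contained in the union of the ranges of the five functions on the pairs
`(n, q)` with `q ≥ 2` in the range of `KOI`; `Z s` of each is at most
`∑_n ∑_{q ≥ 2} (2^n q^6 / 12)^(-s) = 12^s (∑_n 2^(-ns)) (∑_q q^(-6s)) < ∞` as `6s > 1`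
(`ENNReal.tsum_le_tsum_comp_of_surjective`, `Real.summable_nat_rpow`). -/
def S_KOC : Prop := ∀ s : ℝ, 1 / 6 < s → Z s classicalOrders < ⊤

/-- **KOD** (1 h). `Z s exceptionalOrders < ∞` for `s > 1/6`.

Proof. Each of the seven orders `m` satisfies `q^6 ≤ 3 m`: the three with a denominator `g ≤ 3` have
`g ∣ q ∓ 1 ∣ q² - 1`, so `g m = N`, `N ≥ q^6` (one factor is `q^36` or `q^63`, the others are `≥ 1`);
the others are clear. So `Z s` is at most `∑` over the seven forms of `∑_{q ≥ 2} (q^6/3)^(-s) < ∞`. -/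
def S_KOD : Prop := ∀ s : ℝ, 1 / 6 < s → Z s exceptionalOrders < ⊤

end Pool.Agent.Helper4.HZ
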